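import Mathlib

/-!
# MP_b99418_al: the Grigorchuk group acting on the levels of the binary tree — definitions
-/

namespace Pool.Agent.Grig

/-- The four generators of the Grigorchuk group. -/
inductive Gen
  | a | b | c | d
  deriving DecidableEq, Fintype

/-- The action of the generators on finite binary words (vertices of the binary tree);
`false` is the letter `0`, `true` is the letter `1`. -/
def act : Gen → List Bool → List Bool
  | _, [] => []
  | .a, x :: w => (!x) :: w
  | .b, false :: w => false :: act .a w
  | .b, true :: w => true :: act .c w
  | .c, false :: w => false :: act .a w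
  | .c, true :: w => true :: act .d w
  | .d, false :: w => false :: w
  | .d, true :: w => true :: act .b w

/-- The action of the product of a list of generators. -/
def ev (l : List Gen) (w : List Bool) : List Bool := l.foldr act w

/-- Two products of generators are equal in `G_n = G / st_G(n)`: they act in the same way on the
vertices of level `n`. -/
def SameOn (n : ℕ) (l l' : List Gen) : Prop := ∀ w : List Bool, w.length = n → ev l w = ev l' w

/-- The length in `G_n` of the element given by the product of `l`. -/
noncomputable def len (n : ℕ) (l : List Gen) : ℕ :=
  sInf {k | ∃ l' : List Gen, l'.length = k ∧ SameOn n l l'}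

/-- The diameter of the Cayley graph of `G_n` with respect to `{a, b, c, d}`. -/
noncomputable def D (n : ℕ) : ℕ := sSup (Set.range (len n))

/-- The sequence `L`: `L 2 = 4`, `L 3 = 8`, `L 4 = 24`, `L (n+3) = L (n+2) + 2 L (n+1) + 4 L n`
for `n ≥ 2` (and `L 0 = 1`, `L 1 = 1` are not used). -/
def L : ℕ → ℕ
  | 0 => 1
  | 1 => 1
  | 2 => 4
  | 3 => 8
  | 4 => 24
  | n + 5 => L (n + 4) + 2 * L (n + 3) + 4 * L (n + 2)

end Pool.Agent.Grig
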