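import Mathlib
import Pool.Agent.Grig.Defs

namespace Pool.Agent.Grig

open Gen

lemma rel (w : List Bool) : (∀ g, act g (act g w) = w) ∧
    act b (act c w) = act d w ∧ act c (act b w) = act d w ∧
    act b (act d w) = act c w ∧ act d (act b w) = act c w ∧
    act c (act d w) = act b w ∧ act d (act c w) = act b w := by
  induction w with
  | nil => refine ⟨fun g => ?_, ?_⟩ <;> simp [act]
  | cons x w ih =>
    obtain ⟨h0, h1, h2, h3, h4, h5, h6⟩ := ih
    refine ⟨fun g => ?_, ?_⟩
    · cases g <;> cases x <;> simp [act, h0]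
    · cases x <;> simp [act, h0, h1, h2, h3, h4, h5, h6]

lemma act_act (g : Gen) (w : List Bool) : act g (act g w) = w := (rel w).1 g

lemma act_length (g : Gen) (w : List Bool) : (act g w).length = w.length := by
  induction w generalizing g with
  | nil => cases g <;> rfl
  | cons x w ih => cases g <;> cases x <;> simp [act, ih]

@[simp] lemma ev_nil (w : List Bool) : ev [] w = w := rfl
lemma ev_cons (g : Gen) (l : List Gen) (w : List Bool) : ev (g :: l) w = act g (ev l w) := rfl
lemma ev_append (l l' : List Gen) (w : List Bool) : ev (l ++ l') w = ev l (ev l' w) := by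
  simp [ev]

lemma ev_length (l : List Gen) (w : List Bool) : (ev l w).length = w.length := by
  induction l with
  | nil => rfl
  | cons g l ih => rw [ev_cons, act_length, ih]

lemma ev_reverse (l : List Gen) (w : List Bool) : ev l (ev l.reverse w) = w := by
  induction l generalizing w with
  | nil => rfl
  | cons g l ih =>
    rw [List.reverse_cons, ev_append, ev_cons, ih]
    rw [ev_cons, ev_nil, act_act]

lemma ev_reverse' (l : List Gen) (w : List Bool) : ev l.reverse (ev l w) = w := by
  have := ev_reverse l.reverse w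
  rwa [List.reverse_reverse] at this

/-- flip the last letter -/
def zf : List Bool → List Bool
  | [] => []
  | [x] => [!x]
  | x :: y :: w => x :: zf (y :: w)

lemma zf_cons (x : Bool) {w : List Bool} (hw : w ≠ []) : zf (x :: w) = x :: zf w := by
  cases w with
  | nil => exact absurd rfl hw
  | cons y w => rfl

lemma act_ne_nil (g : Gen) {w : List Bool} (hw : w ≠ []) : act g w ≠ [] := by
  intro h
  have := congrArg List.length h
  rw [act_length] at this
  exact hw (List.length_eq_zero_iff.mp this)

lemma zf_length (w : List Bool) : (zf w).length = w.length := by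
  induction w with
  | nil => rfl
  | cons x w ih =>
    rcases eq_or_ne w [] with rfl | hw
    · rfl
    · rw [zf_cons x hw, List.length_cons, ih, List.length_cons]

lemma act_zf (g : Gen) (w : List Bool) : act g (zf w) = zf (act g w) := by
  induction w generalizing g with
  | nil => cases g <;> rfl
  | cons x w ih =>
    rcases eq_or_ne w [] with rfl | hw
    · cases g <;> cases x <;> rfl
    · rw [zf_cons x hw]
      cases g <;> cases x <;>
        simp only [act, ih, zf_cons _ hw, zf_cons _ (act_ne_nil _ hw)]

lemma ev_zf (l : List Gen) (w : List Bool) : ev l (zf w) = zf (ev l w) := by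
  induction l with
  | nil => rfl
  | cons g l ih => rw [ev_cons, ev_cons, ih, act_zf]

/-- weights -/
def wt (w : Gen → ℤ) (l : List Gen) : ℤ := (l.map w).sum

@[simp] lemma wt_nil (w : Gen → ℤ) : wt w [] = 0 := rfl
lemma wt_cons (w : Gen → ℤ) (g : Gen) (l : List Gen) : wt w (g :: l) = w g + wt w l := by
  simp [wt]
lemma wt_append (w : Gen → ℤ) (l l' : List Gen) : wt w (l ++ l') = wt w l + wt w l' := by
  simp [wt]

/-- the Klein four group `{1, b, c, d}` as words -/
inductive V
  | e | b | c | d

def V.toList : V → List Gen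
  | .e => []
  | .b => [Gen.b]
  | .c => [Gen.c]
  | .d => [Gen.d]

def V.mul : V → V → V
  | .e, v => v
  | v, .e => v
  | .b, .b => .e
  | .c, .c => .e
  | .d, .d => .e
  | .b, .c => .d
  | .c, .b => .d
  | .b, .d => .c
  | .d, .b => .c
  | .c, .d => .b
  | .d, .c => .b

lemma V.mul_ev (v v' : V) (w : List Bool) :
    ev (V.mul v v').toList w = ev v.toList (ev v'.toList w) := by
  obtain ⟨h0, h1, h2, h3, h4, h5, h6⟩ := rel w
  cases v <;> cases v' <;> simp [V.mul, V.toList, ev, h0, h1, h2, h3, h4, h5, h6]

lemma V.sq (v : V) (w : List Bool) : ev v.toList (ev v.toList w) = w := by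
  cases v <;> simp [V.toList, ev, act_act]

/-- good weights -/
structure Good (w : Gen → ℤ) : Prop where
  a0 : 0 ≤ w a
  c0 : 0 ≤ w c
  d0 : 0 ≤ w d
  tb : w b ≤ w c + w d
  td : w d ≤ w b + w c
  cb : w c ≤ w b

def wv (w : Gen → ℤ) (v : V) : ℤ := wt w v.toList

lemma wv_mul {w : Gen → ℤ} (hw : Good w) (v v' : V) : wv w (V.mul v v') ≤ wv w v + wv w v' := by
  have h1 := hw.a0
  have h2 := hw.c0
  have h3 := hw.d0
  have h4 := hw.tb
  have h5 := hw.td
  have h6 := hw.cb
  cases v <;> cases v' <;> simp [V.mul, wv, V.toList, wt] <;> linarith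

/-- products of `a y` -/
def evP (ys : List V) (w : List Bool) : List Bool :=
  ys.foldr (fun y z => act a (ev y.toList z)) w

lemma evP_cons (y : V) (ys : List V) (w : List Bool) :
    evP (y :: ys) w = act a (ev y.toList (evP ys w)) := rfl

lemma evP_append (ys ys' : List V) (w : List Bool) : evP (ys ++ ys') w = evP ys (evP ys' w) := by
  simp [evP]

/-- total weight of a product of `a y` -/
def wP (w : Gen → ℤ) (ys : List V) : ℤ := (ys.map fun y => w a + wv w y).sum

lemma wP_cons (w : Gen → ℤ) (y : V) (ys : List V) : wP w (y :: ys) = w a + wv w y + wP w ys := by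
  simp [wP]

lemma wP_append (w : Gen → ℤ) (ys ys' : List V) : wP w (ys ++ ys') = wP w ys + wP w ys' := by
  simp [wP]

lemma wP_nil (w : Gen → ℤ) : wP w [] = 0 := rfl

lemma normal_form {w : Gen → ℤ} (hw : Good w) (l : List Gen) :
    ∃ (v0 : V) (ys : List V), (∀ x, ev l x = ev v0.toList (evP ys x)) ∧
      wv w v0 + wP w ys ≤ wt w l := by
  induction l with
  | nil => exact ⟨.e, [], fun x => rfl, by simp [wv, V.toList, wP]⟩
  | cons g l ih =>
    obtain ⟨v0, ys, h1, h2⟩ := ih
    have key : ∀ v : V, v.toList = [g] →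
        ∃ (v0 : V) (ys : List V), (∀ x, ev (g :: l) x = ev v0.toList (evP ys x)) ∧
          wv w v0 + wP w ys ≤ wt w (g :: l) := by
      intro v hv
      refine ⟨V.mul v v0, ys, fun x => ?_, ?_⟩
      · rw [V.mul_ev, ← h1, hv]; rfl
      · have h3 := wv_mul hw v v0
        have h4 : wv w v = w g := by simp [wv, hv, wt]
        rw [wt_cons]
        linarith
    cases g with
    | a =>
      refine ⟨.e, v0 :: ys, fun x => ?_, ?_⟩
      · rw [ev_cons, h1]; rfl
      · rw [wP_cons, wt_cons]
        have h0 : wv w V.e = 0 := rfl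
        rw [h0]
        linarith
    | b => exact key .b rfl
    | c => exact key .c rfl
    | d => exact key .d rfl

lemma fix_ones (v : V) (k : ℕ) (x : Bool) :
    ev v.toList (List.replicate k true ++ [x]) = List.replicate k true ++ [x] := by
  have key : ∀ (k : ℕ), act b (List.replicate k true ++ [x]) = List.replicate k true ++ [x] ∧
      act c (List.replicate k true ++ [x]) = List.replicate k true ++ [x] ∧
      act d (List.replicate k true ++ [x]) = List.replicate k true ++ [x] := by
    intro k
    induction k with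
    | zero => cases x <;> simp [act]
    | succ k ih =>
      obtain ⟨h1, h2, h3⟩ := ih
      rw [List.replicate_succ, List.cons_append]
      simp [act, h1, h2, h3]
  obtain ⟨h1, h2, h3⟩ := key k
  cases v <;> simp [V.toList, ev, h1, h2, h3]

lemma zf_concat (u : List Bool) (x : Bool) : zf (u ++ [x]) = u ++ [!x] := by
  induction u with
  | nil => rfl
  | cons y u ih =>
    rw [List.cons_append, zf_cons y (by simp), ih]; rfl

/-- `l` represents the element `z_n` flipping the last letter of all words of length `n` -/
def RepZ (n : ℕ) (l : List Gen) : Prop := ∀ w : List Bool, w.length = n → ev l w = zf w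

lemma rotate {w : Gen → ℤ} (hw : Good w) {n : ℕ} (hn : 1 ≤ n) {l : List Gen} (hl : RepZ n l) :
    ∃ ys : List V, ys ≠ [] ∧ (∀ x : List Bool, x.length = n → evP ys x = zf x) ∧
      wP w ys ≤ wt w l := by
  obtain ⟨v0, ys, h1, h2⟩ := normal_form hw l
  rcases ys.eq_nil_or_concat with rfl | ⟨ys', y, rfl⟩
  · exfalso
    have h3 := hl (List.replicate (n - 1) true ++ [true]) (by simp; omega)
    rw [h1] at h3
    have h4 : evP [] (List.replicate (n - 1) true ++ [true]) =
      List.replicate (n - 1) true ++ [true] := rfl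
    rw [h4, fix_ones, zf_concat] at h3
    have h5 := List.append_cancel_left h3
    simp at h5
  · refine ⟨ys' ++ [V.mul y v0], by simp, fun x hx => ?_, ?_⟩
    · rw [evP_append]
      have h3 : evP [V.mul y v0] x = act a (ev y.toList (ev v0.toList x)) := by
        rw [evP_cons, V.mul_ev]; rfl
      rw [h3]
      have h4 : act a (ev y.toList (ev v0.toList x)) = evP [y] (ev v0.toList x) := rfl
      rw [h4, ← evP_append]
      have h5 := hl (ev v0.toList x) (by rw [ev_length, hx])
      rw [h1] at h5
      have h6 := congrArg (ev v0.toList) h5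
      rw [V.sq] at h6
      rw [List.concat_eq_append] at h6
      rw [h6, ev_zf, V.sq]
    · rw [List.concat_eq_append, wP_append] at h2
      rw [wP_append]
      have h3 := wv_mul hw y v0
      rw [wP_cons, wP_nil] at h2 ⊢
      linarith

/-- sections -/
def vsec : V → Bool → List Gen
  | .e, _ => []
  | .b, false => [a]
  | .b, true => [c]
  | .c, false => [a]
  | .c, true => [d]
  | .d, false => []
  | .d, true => [b]

lemma ev_v_cons (v : V) (x : Bool) (w : List Bool) :
    ev v.toList (x :: w) = x :: ev (vsec v x) w := by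
  cases v <;> cases x <;> simp [V.toList, ev, act, vsec]

def top : List V → Bool → Bool
  | [], x => x
  | _ :: ys, x => !(top ys x)

def sec : List V → Bool → List Gen
  | [], _ => []
  | y :: ys, x => vsec y (top ys x) ++ sec ys x

lemma evP_sec (ys : List V) (x : Bool) (w : List Bool) :
    evP ys (x :: w) = top ys x :: ev (sec ys x) w := by
  induction ys with
  | nil => rfl
  | cons y ys ih =>
    rw [evP_cons, ih, ev_v_cons]
    show (!(top ys x)) :: ev (vsec y (top ys x)) (ev (sec ys x) w) = _
    rw [← ev_append]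
    rfl

lemma top_not (ys : List V) : top ys true = !(top ys false) := by
  induction ys with
  | nil => rfl
  | cons y ys ih => simp only [top, ih]

/-- the next weight -/
def nx (w : Gen → ℤ) : Gen → ℤ
  | .a => w a + w b + w c - w d
  | .b => 2 * (w a + w d)
  | .c => w a + w b - w c + w d
  | .d => w a - w b + w c + w d

lemma wt_sec {w : Gen → ℤ} (hw : Good w) (ys : List V) :
    wt (nx w) (sec ys false) + wt (nx w) (sec ys true) ≤ 2 * wP w ys := by
  induction ys with
  | nil => simp [sec, wP]
  | cons y ys ih =>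
    simp only [sec, wt_append, wP_cons, top_not]
    have h1 := hw.a0
    have h2 : ∀ z : Bool, wt (nx w) (vsec y z) + wt (nx w) (vsec y (!z)) ≤
        2 * (w a + wv w y) := by
      intro z
      cases y <;> cases z <;> simp [vsec, wt, nx, wv, V.toList] <;> linarith
    have h3 := h2 (top ys false)
    linarith

lemma step {w : Gen → ℤ} (hw : Good w) {n : ℕ} (hn : 1 ≤ n) {l : List Gen}
    (hl : RepZ (n + 1) l) {B : ℤ} (hB : ∀ l', RepZ n l' → B ≤ wt (nx w) l') : B ≤ wt w l := by
  obtain ⟨ys, _, h1, h2⟩ := rotate hw (by omega) hl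
  have hrep : ∀ x, RepZ n (sec ys x) := by
    intro x u hu
    have h3 := h1 (x :: u) (by simp [hu])
    have hu0 : u ≠ [] := by rintro rfl; simp at hu; omega
    rw [evP_sec, zf_cons x hu0] at h3
    exact (List.cons.inj h3).2
  have h4 := hB _ (hrep false)
  have h5 := hB _ (hrep true)
  have h6 := wt_sec hw ys
  linarith

/-- number of `b`, `c` factors -/
def nbc : List V → ℤ
  | [] => 0
  | .b :: ys => 1 + nbc ys
  | .c :: ys => 1 + nbc ys
  | .e :: ys => nbc ys
  | .d :: ys => nbc ys

lemma nbc_count (ys : List V) :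
    ((sec ys false).count a : ℤ) + ((sec ys true).count a : ℤ) = nbc ys := by
  induction ys with
  | nil => simp [sec, nbc]
  | cons y ys ih =>
    simp only [sec, List.count_append, top_not]
    push_cast
    cases y <;> cases top ys false <;> simp [vsec, nbc] <;> linarith

lemma nbc_le {w : Gen → ℤ} (hw : Good w) (ys : List V) :
    w c * nbc ys + w a * ys.length ≤ wP w ys := by
  induction ys with
  | nil => simp [nbc, wP]
  | cons y ys ih =>
    rw [wP_cons]
    have h2 := hw.c0
    have h3 := hw.d0
    have h6 := hw.cb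
    cases y <;> simp [nbc, wv, V.toList, wt] <;> linarith

lemma top_parity (ys : List V) : top ys false = false → ys ≠ [] → 2 ≤ ys.length := by
  intro h hne
  match ys, hne with
  | [y], _ => simp [top] at h
  | y :: y' :: ys, _ => simp

lemma flips_count {l : List Gen} (h : ∀ x, ev l [x] = [!x]) : 1 ≤ l.count a := by
  by_contra hcon
  have h0 : l.count a = 0 := by omega
  have key : ∀ l : List Gen, l.count a = 0 → ev l [true] = [true] := by
    intro l
    induction l with
    | nil => intro _; rfl
    | cons g l ih =>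
      intro hc
      rw [List.count_cons] at hc
      have h1 : l.count a = 0 := by omega
      rw [ev_cons, ih h1]
      cases g
      · simp at hc
      · rfl
      · rfl
      · rfl
  have := h true
  rw [key l h0] at this
  simp at this

lemma base {w : Gen → ℤ} (hw : Good w) {l : List Gen} (hl : RepZ 2 l) :
    2 * w a + 2 * w c ≤ wt w l := by
  obtain ⟨ys, hne, h1, h2⟩ := rotate hw (by omega) hl
  have hsec : ∀ x y : Bool, top ys x = x ∧ ev (sec ys x) [y] = [!y] := by
    intro x y
    have h3 := h1 [x, y] rfl
    rw [evP_sec] at h3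
    exact ⟨(List.cons.inj h3).1, (List.cons.inj h3).2⟩
  have h3 := top_parity ys (hsec false false).1 hne
  have h4 := flips_count (l := sec ys false) fun y => (hsec false y).2
  have h5 := flips_count (l := sec ys true) fun y => (hsec true y).2
  have h6 := nbc_count ys
  have h7 := nbc_le hw ys
  have h8 : (2 : ℤ) ≤ nbc ys := by
    rw [← h6]
    have h9 : (1 : ℤ) ≤ ((sec ys false).count a : ℤ) := by exact_mod_cast h4
    have h10 : (1 : ℤ) ≤ ((sec ys true).count a : ℤ) := by exact_mod_cast h5
    linarith
  have h9 : (2 : ℤ) ≤ (ys.length : ℤ) := by exact_mod_cast h3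
  have h10 := mul_le_mul_of_nonneg_left h8 hw.c0
  have h11 := mul_le_mul_of_nonneg_left h9 hw.a0
  linarith

/-- iterated weights -/
def wk : ℕ → Gen → ℤ
  | 0 => fun _ => 1
  | k + 1 => nx (wk k)

lemma wk_inv (k : ℕ) : 0 ≤ wk (k + 1) a ∧ 0 ≤ wk (k + 1) c ∧ 0 ≤ wk (k + 1) d ∧
    wk (k + 1) b = wk (k + 1) c + wk (k + 1) d := by
  induction k with
  | zero => simp [wk, nx]
  | succ k ih =>
    obtain ⟨h1, h2, h3, h4⟩ := ih
    show 0 ≤ nx (wk (k + 1)) a ∧ 0 ≤ nx (wk (k + 1)) c ∧ 0 ≤ nx (wk (k + 1)) d ∧
      nx (wk (k + 1)) b = nx (wk (k + 1)) c + nx (wk (k + 1)) d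
    simp only [nx]
    refine ⟨by linarith, by linarith, by linarith, by linarith⟩

lemma wk_good (k : ℕ) : Good (wk k) := by
  cases k with
  | zero => constructor <;> simp [wk]
  | succ k =>
    obtain ⟨h1, h2, h3, h4⟩ := wk_inv k
    constructor <;> linarith

lemma lower_aux (n : ℕ) : ∀ (k : ℕ) (l : List Gen), RepZ (n + 2) l →
    2 * wk (k + n) a + 2 * wk (k + n) c ≤ wt (wk k) l := by
  induction n with
  | zero =>
    intro k l hl
    exact base (wk_good k) hl
  | succ n ih =>
    intro k l hl
    refine step (wk_good k) (n := n + 2) (by omega) hl fun l' hl' => ?_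
    have := ih (k + 1) l' hl'
    have h1 : k + (n + 1) = k + 1 + n := by ring
    rw [h1]
    exact this

lemma L_eq (n : ℕ) : (L (n + 2) : ℤ) = 2 * wk n a + 2 * wk n c ∧
    (L (n + 3) : ℤ) = 2 * wk (n + 1) a + 2 * wk (n + 1) c ∧
    (L (n + 4) : ℤ) = 2 * wk (n + 2) a + 2 * wk (n + 2) c := by
  induction n with
  | zero => simp [L, wk, nx]
  | succ n ih =>
    obtain ⟨h1, h2, h3⟩ := ih
    refine ⟨h2, h3, ?_⟩
    have h4 : (L (n + 1 + 4) : ℤ) = L (n + 4) + 2 * L (n + 3) + 4 * L (n + 2) := by
      show ((L (n + 5) : ℕ) : ℤ) = _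
      simp only [L]
      push_cast
      ring
    rw [h4, h1, h2, h3]
    show _ = 2 * nx (nx (nx (wk n))) a + 2 * nx (nx (nx (wk n))) c
    show 2 * nx (nx (wk n)) a + 2 * nx (nx (wk n)) c +
      2 * (2 * nx (wk n) a + 2 * nx (wk n) c) + 4 * (2 * wk n a + 2 * wk n c) = _
    simp only [nx]
    ring

theorem lower {n : ℕ} {l : List Gen} (hl : RepZ (n + 2) l) : L (n + 2) ≤ l.length := by
  have h1 := lower_aux n 0 l hl
  have h2 : wt (wk 0) l = l.length := by
    clear h1 hl
    induction l with
    | nil => rfl
    | cons g l ih =>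
      rw [wt_cons, ih, List.length_cons]
      simp only [wk]
      push_cast
      ring
  rw [h2, zero_add] at h1
  have h3 := (L_eq n).1
  rw [← h3] at h1
  exact_mod_cast h1

end Pool.Agent.Grig
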