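import Mathlib
import Pool.Agent.Grig.Words

namespace Pool.Agent.Grig

open Gen

/-- `t = (ab)^2` -/
def tt : List Gen := [a, b, a, b]

/-- products of conjugates of `t` -/
def kel (hs : List (List Gen)) : List Gen := hs.flatMap fun h => h ++ tt ++ h.reverse

def phi : Gen → List Gen
  | .a => [a, b, a]
  | .b => [d]
  | .c => [b]
  | .d => [c]

def psi : Gen → List Gen
  | .a => [c]
  | .b => []
  | .c => [a]
  | .d => [a]

def Phi (h : List Gen) : List Gen := h.flatMap phi
def Psi (h : List Gen) : List Gen := h.flatMap psi

lemma ev_Phi_true (h : List Gen) (w : List Bool) : ev (Phi h) (true :: w) = true :: ev h w := by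
  induction h with
  | nil => rfl
  | cons g h ih =>
    have : Phi (g :: h) = phi g ++ Phi h := rfl
    rw [this, ev_append, ih]
    cases g <;> simp [phi, ev, act]

lemma ev_Phi_false (h : List Gen) (w : List Bool) :
    ev (Phi h) (false :: w) = false :: ev (Psi h) w := by
  induction h with
  | nil => rfl
  | cons g h ih =>
    have h1 : Phi (g :: h) = phi g ++ Phi h := rfl
    have h2 : Psi (g :: h) = psi g ++ Psi h := rfl
    rw [h1, h2, ev_append, ih, ev_append]
    cases g <;> simp [phi, psi, ev, act]

lemma kel_cons (h : List Gen) (hs : List (List Gen)) (w : List Bool) :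
    ev (kel (h :: hs)) w = ev h (ev tt (ev h.reverse (ev (kel hs) w))) := by
  have : kel (h :: hs) = h ++ tt ++ h.reverse ++ kel hs := rfl
  rw [this, ev_append, ev_append, ev_append]

lemma kel_append (hs hs' : List (List Gen)) (w : List Bool) :
    ev (kel (hs ++ hs')) w = ev (kel hs) (ev (kel hs') w) := by
  have : kel (hs ++ hs') = kel hs ++ kel hs' := by simp [kel]
  rw [this, ev_append]

def lift1 (hs : List (List Gen)) : List (List Gen) := hs.flatMap fun h => [Phi h, Phi h ++ [c]]

lemma tt_true (u : List Bool) : ev tt (true :: u) = true :: act a (act c u) := by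
  simp [tt, ev, act]

lemma tt_false (u : List Bool) : ev tt (false :: u) = false :: act c (act a u) := by
  simp [tt, ev, act]

lemma tctc_true (w : List Bool) :
    ev tt (act c (ev tt (act c (true :: w)))) = true :: ev tt w := by
  have hc : ∀ u : List Bool, act c (true :: u) = true :: act d u := fun u => rfl
  have hcd : ∀ u : List Bool, act c (act d u) = act b u := fun u => (rel u).2.2.2.2.2.1
  rw [hc, tt_true, hc, tt_true, hcd, hcd]
  rfl

lemma tctc_false (w : List Bool) :
    ev tt (act c (ev tt (act c (false :: w)))) = false :: w := by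
  have hc : ∀ u : List Bool, act c (false :: u) = false :: act a u := fun u => rfl
  rw [hc, tt_false, act_act, hc, tt_false, act_act, act_act]

lemma phi_reverse (g : Gen) : (phi g).reverse = phi g := by cases g <;> rfl
lemma psi_reverse (g : Gen) : (psi g).reverse = psi g := by cases g <;> rfl

lemma Phi_reverse (h : List Gen) : (Phi h).reverse = Phi h.reverse := by
  induction h with
  | nil => rfl
  | cons g h ih =>
    have h1 : Phi (g :: h) = phi g ++ Phi h := rfl
    rw [h1, List.reverse_append, ih, phi_reverse, List.reverse_cons]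
    simp [Phi]

lemma Psi_reverse (h : List Gen) : (Psi h).reverse = Psi h.reverse := by
  induction h with
  | nil => rfl
  | cons g h ih =>
    have h1 : Psi (g :: h) = psi g ++ Psi h := rfl
    rw [h1, List.reverse_append, ih, psi_reverse, List.reverse_cons]
    simp [Psi]

lemma lift1_cons (h : List Gen) (hs : List (List Gen)) (w : List Bool) :
    ev (kel (lift1 (h :: hs))) w =
      ev (Phi h) (ev tt (act c (ev tt (act c (ev (Phi h).reverse (ev (kel (lift1 hs)) w)))))) := by
  have : lift1 (h :: hs) = Phi h :: (Phi h ++ [c]) :: lift1 hs := rfl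
  rw [this, kel_cons, kel_cons]
  have h1 : ∀ u, ev (Phi h).reverse (ev (Phi h ++ [c]) u) = act c u := by
    intro u
    rw [ev_append, ev_reverse']; rfl
  have h2 : ∀ u, ev (Phi h ++ [c]).reverse u = act c (ev (Phi h).reverse u) := by
    intro u
    rw [List.reverse_append, ev_append]; rfl
  rw [h1, h2]

lemma lift1_true (hs : List (List Gen)) (w : List Bool) :
    ev (kel (lift1 hs)) (true :: w) = true :: ev (kel hs) w := by
  induction hs with
  | nil => rfl
  | cons h hs ih =>
    rw [lift1_cons, ih, Phi_reverse, ev_Phi_true, tctc_true, ev_Phi_true, kel_cons]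

lemma lift1_false (hs : List (List Gen)) (w : List Bool) :
    ev (kel (lift1 hs)) (false :: w) = false :: w := by
  induction hs with
  | nil => rfl
  | cons h hs ih =>
    rw [lift1_cons, ih, Phi_reverse, ev_Phi_false, tctc_false, ev_Phi_false, ← Psi_reverse,
      ev_reverse]

lemma conj_a (hs : List (List Gen)) (w : List Bool) :
    ev (kel (hs.map (fun h => a :: h))) w = act a (ev (kel hs) (act a w)) := by
  induction hs with
  | nil => simp [kel, act_act]
  | cons h hs ih =>
    rw [List.map_cons, kel_cons, ih, kel_cons]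
    have h1 : ∀ u, ev (a :: h).reverse u = ev h.reverse (act a u) := by
      intro u
      rw [List.reverse_cons, ev_append]; rfl
    rw [h1, act_act, ev_cons]

theorem exists_rep (n : ℕ) : ∃ hs : List (List Gen), RepZ (n + 2) (kel hs) := by
  induction n with
  | zero =>
    refine ⟨[[]], fun w hw => ?_⟩
    match w, hw with
    | [x, y], _ => cases x <;> cases y <;> rfl
  | succ n ih =>
    obtain ⟨hs, h⟩ := ih
    refine ⟨lift1 hs ++ (lift1 hs).map (fun h => a :: h), fun w hw => ?_⟩
    match w, hw with
    | x :: w, hw =>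
      have hw' : w.length = n + 2 := by simpa using hw
      have hne : w ≠ [] := by rintro rfl; simp at hw'
      rw [kel_append, conj_a, zf_cons x hne]
      cases x
      · have h1 : act a (false :: w) = true :: w := rfl
        rw [h1, lift1_true, h w hw']
        have h2 : act a (true :: zf w) = false :: zf w := rfl
        rw [h2, lift1_false]
      · have h1 : act a (true :: w) = false :: w := rfl
        rw [h1, lift1_false]
        have h2 : act a (false :: w) = true :: w := rfl
        rw [h2, lift1_true, h w hw']

lemma sameOn_refl (n : ℕ) (l : List Gen) : SameOn n l l := fun _ _ => rfl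

lemma finite_range_len (n : ℕ) : (Set.range (len n)).Finite := by
  classical
  let κ : List Gen → ((Fin n → Bool) → List.Vector Bool n) := fun l v =>
    ⟨ev l (List.ofFn v), by rw [ev_length, List.length_ofFn]⟩
  have hκ : ∀ l l', κ l = κ l' → SameOn n l l' := by
    intro l l' h w hw
    have h1 := congrArg Subtype.val (congrFun h (fun i => w[(i : ℕ)]'(by omega)))
    have h2 : List.ofFn (fun i : Fin n => w[(i : ℕ)]'(by omega)) = w := by
      apply List.ext_getElem (by simp [hw])
      intro i h1 h2
      simp
    have h3 : ev l (List.ofFn (fun i : Fin n => w[(i : ℕ)]'(by omega))) =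
      ev l' (List.ofFn (fun i : Fin n => w[(i : ℕ)]'(by omega))) := h1
    rwa [h2] at h3
  have hft : (len n).FactorsThrough κ := by
    intro l l' h
    have h1 := hκ l l' h
    unfold len
    congr 1
    ext k
    constructor
    · rintro ⟨l2, h2, h3⟩
      exact ⟨l2, h2, fun w hw => (h1 w hw).symm.trans (h3 w hw)⟩
    · rintro ⟨l2, h2, h3⟩
      exact ⟨l2, h2, fun w hw => (h1 w hw).trans (h3 w hw)⟩
  refine (Set.finite_range (Function.extend κ (len n) 0)).subset ?_
  rintro _ ⟨l, rfl⟩
  exact ⟨κ l, hft.extend_apply 0 l⟩

theorem main (n : ℕ) (hn : 2 ≤ n) :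
    (∃ l : List Gen, L n ≤ len n l) ∧ L n ≤ D n := by
  obtain ⟨n, rfl⟩ : ∃ m, n = m + 2 := ⟨n - 2, by omega⟩
  obtain ⟨hs, h⟩ := exists_rep n
  have h1 : L (n + 2) ≤ len (n + 2) (kel hs) := by
    have hne : {k | ∃ l' : List Gen, l'.length = k ∧ SameOn (n + 2) (kel hs) l'}.Nonempty :=
      ⟨_, kel hs, rfl, sameOn_refl _ _⟩
    obtain ⟨l', h2, h3⟩ := Nat.sInf_mem hne
    show L (n + 2) ≤ sInf _
    rw [← h2]
    exact lower fun w hw => (h3 w hw).symm.trans (h w hw)
  refine ⟨⟨_, h1⟩, h1.trans ?_⟩
  exact le_csSup (finite_range_len _).bddAbove ⟨_, rfl⟩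

end Pool.Agent.Grig
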